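import Mathlib
import Pool.Agent.Q256.VP.Fin

set_option autoImplicit false

/-!
# The truncated inequality of Vojta on `ℙ¹ × ℙ¹` for almost all divisors, at all points

Let `q i`, `r i`, `i < k`, be given, and let `D = D_0 + ⋯ + D_(k-1)` where `D_i` is the zero divisor
of a bihomogeneous polynomial `F i` of bidegree `(q i, r i)` with integral coefficients in `[-H, H]`;
`D` has bidegree `(∑ q i, ∑ r i)`.  There are `(2H+1)^N` such systems, `N = ∑ (q i + 1) (r i + 1)`.
For all but `C T^(N - δ + ε)` of them the inequality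

  `N^(1)_D(α, β) ≥ (∑ q i - 2 - ε) h(α) + (∑ r i - 2 - ε) h(β) + (k - δ) log T`

holds at all rational points `(α, β)` outside `D` of height `h(α), h(β) ≤ log T`, without any
exceptional set.

* `val c s t` : the value at `(s, t)` of the polynomial with coefficients `c`;
* `InB H c` : all coefficients of all `F i` are at most `H` in absolute value;
* `N1 S c s t` : the sum of `log p` over the primes `p` outside `S` dividing `∏ F i (s, t)`;
* `ht s` : the logarithm of `max |s 0|, |s 1|`;
* `Fails q r S H T ε δ` : the systems for which the inequality fails at some point.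
-/

namespace Pool.Agent.Results.MP_542436_nt.AlmostAllDivisorsAllPoints

open Pool.Agent.Q256.VP

theorem result (k : ℕ) (q r : Fin k → ℕ) (S : Finset ℕ) (ε : ℝ) (hε : 0 < ε) :
    (∃ C : ℝ, ∀ (δ : ℝ) (H T : ℕ), 1 ≤ H → H ≤ T →
      (Nat.card (Fails q r S H T ε δ) : ℝ) ≤
        C * (T : ℝ) ^ ((∑ i, (((q i : ℝ) + 1) * ((r i : ℝ) + 1))) - δ + ε)) ∧
    ∀ H : ℕ, Nat.card {c : SysB q r // InB H c} = (2 * H + 1) ^ (∑ i, (q i + 1) * (r i + 1)) := by
  refine ⟨?_, fun H => card_inB H⟩
  obtain ⟨C, hC⟩ := fails_le q r S ε hε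
  exact ⟨C, fun δ H T hH hHT => hC δ H T (hH.trans hHT) hHT⟩

end Pool.Agent.Results.MP_542436_nt.AlmostAllDivisorsAllPoints
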