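import Pool.Agent.Q138.PS.WM
import Pool.Agent.Q138.AJ.R542436

/-!
# The truncated inequality of Vojta on `ℙ¹ × ℙ¹` for the pairs of good approximations of two real numbers

Let `D` be the union of the fibres over `q` rational points of the first and `r` rational points of the second line, `3 ≤ q ≤ r`, with
bidegree `(q, r)`; `N^(1)_D(x, y)` is the truncated counting function (outside a finite set `S` of primes). For a pair `z = (z_1, z_2)`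
of real numbers consider the rational points `(x, y)` off `D` with `|x - z_1| ≤ C' H(x) ^ (-θ)` and `|y - z_2| ≤ C' H(y) ^ (-θ)`: for
`θ = 2` these are all pairs of convergents `x` of `z_1`, `y` of `z_2` (and more).

* Let `0 ≤ κ ≤ q` and `θ > 2 - 2 κ / r`. Outside a set of `z ∈ ℝ²` of Hausdorff dimension at most `1 + (2 - 2 κ / r) / θ` (which is
  smaller than `2`): for ALL grids `D` (with `q` and `r` fibres), all `S`, all constants `c` and `C'`, the inequality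
  `N^(1)_D(x, y) ≥ (q - κ) h(x) + (r - κ) h(y) + c` holds for all but finitely many of these `(x, y)`. There is no exceptional
  curve. For `κ = 2` and `θ = 2` the dimension is at most `2 - 2 / r`.
* For almost every `z ∈ ℝ²` this holds for all `q`, `r`, all `κ > 0` and `θ = 2`.
-/

set_option autoImplicit false

namespace Pool.Agent.Results.MP_542436_nt.PairsOfConvergents

open Filter MeasureTheory Pool.Agent.Q138.PS Pool.Agent.Q138.AJ.R542436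

/-- The points `(x, y)` off the grid with `N^(1)_D < (q - κ) h(x) + (r - κ) h(y) + c`, different from infinity in both coordinates. -/
def Bad {q r : ℕ} (α : Fin q → ℤ × ℤ) (β : Fin r → ℤ × ℤ) (S : Finset ℕ) (κ c : ℝ) : Set ((ℤ × ℤ) × (ℤ × ℤ)) :=
  {P | Coord P.1 ∧ Coord P.2 ∧ P.1.2 ≠ 0 ∧ P.2.2 ≠ 0 ∧ form α P.1 * form β P.2 ≠ 0 ∧
    trunc S (form α P.1 * form β P.2) < ((q : ℝ) - κ) * Real.log (height P.1) + ((r : ℝ) - κ) * Real.log (height P.2) + c}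

/-- The points `(x, y)` with `|x - z_1| ≤ D H(x) ^ (-θ)` and `|y - z_2| ≤ D H(y) ^ (-θ)`. -/
def Near (z : ℝ × ℝ) (θ D : ℝ) : Set ((ℤ × ℤ) × (ℤ × ℤ)) :=
  {P | |(P.1.1 : ℝ) / P.1.2 - z.1| ≤ D * (height P.1 : ℝ) ^ (-θ) ∧ |(P.2.1 : ℝ) / P.2.2 - z.2| ≤ D * (height P.2 : ℝ) ^ (-θ)}

/-- pairwise distinct points of the line in coprime coordinates -/
def Distinct {q : ℕ} (α : Fin q → ℤ × ℤ) : Prop :=
  (∀ i, IsCoprime (α i).1 (α i).2) ∧ ∀ i j, i ≠ j → (α i).1 * (α j).2 ≠ (α j).1 * (α i).2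

theorem height_pos {x : ℤ × ℤ} (h : Coord x) : (1 : ℝ) ≤ height x := by
  have h1 : 1 ≤ height x := by
    unfold height
    rcases h.2 with h2 | ⟨-, h2⟩
    · exact le_max_of_le_right (by omega)
    · exact le_max_of_le_left (by omega)
  exact_mod_cast h1

theorem bad_mono {q r : ℕ} (α : Fin q → ℤ × ℤ) (β : Fin r → ℤ × ℤ) (S : Finset ℕ) {κ κ' c c' : ℝ} (h : κ ≤ κ') (h2 : c' ≤ c) :
    Bad α β S κ' c' ⊆ Bad α β S κ c := by
  rintro P ⟨h1, h3, h4, h5, h6, h7⟩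
  refine ⟨h1, h3, h4, h5, h6, h7.trans_le ?_⟩
  have e1 := Real.log_nonneg (height_pos h1)
  have e2 := Real.log_nonneg (height_pos h3)
  nlinarith

theorem near_mono {z : ℝ × ℝ} {θ D D' : ℝ} (h : D ≤ D') : Near z θ D ⊆ Near z θ D' := by
  rintro P ⟨h1, h2⟩
  exact ⟨h1.trans (mul_le_mul_of_nonneg_right h (Real.rpow_nonneg (Nat.cast_nonneg _) _)),
    h2.trans (mul_le_mul_of_nonneg_right h (Real.rpow_nonneg (Nat.cast_nonneg _) _))⟩

theorem one_grid {q r : ℕ} (hq : 3 ≤ q) (hqr : q ≤ r) {α : Fin q → ℤ × ℤ} {β : Fin r → ℤ × ℤ} (hα : Distinct α)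
    (hβ : Distinct β) (S : Finset ℕ) (κ θ c D : ℝ) (hκ0 : 0 ≤ κ) (hκ : κ ≤ q) (hθ : 2 - 2 * κ / r < θ) (hD : 0 < D) :
    dimH {z : ℝ × ℝ | (Bad α β S κ c ∩ Near z θ D).Infinite} ≤ ENNReal.ofReal (1 + (2 - 2 * κ / r) / θ) := by
  have hr0 : (0 : ℝ) < r := by
    have : 0 < r := by omega
    exact_mod_cast this
  have hqr' : (q : ℝ) ≤ r := by exact_mod_cast hqr
  have h0 : 0 ≤ 2 - 2 * κ / r := by
    rw [sub_nonneg, div_le_iff₀ hr0]
    linarith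
  refine (dimH_mono ?_).trans (rect_eps (Bad α β S κ c) (fun P => (P.1.1 : ℝ) / P.1.2) (fun P => (P.2.1 : ℝ) / P.2.2)
    (fun P => (height P.1 : ℝ)) (fun P => (height P.2 : ℝ)) θ (2 - 2 * κ / r) D h0 hθ hD
    (fun P hP => ⟨height_pos hP.1, height_pos hP.2.1⟩) fun ε hε => ?_)
  · intro z hz
    refine Set.Infinite.mono ?_ hz
    rintro P ⟨h1, h2⟩
    exact ⟨h1, h2⟩
  · obtain ⟨C, -, h⟩ := Pool.Agent.Q138.AJ.R542436.result q r hq hqr α β hα.1 hβ.1 hα.2 hβ.2 S κ c ε hκ0 hκ hε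
    refine ⟨C, fun X Y hX hY => ?_⟩
    obtain ⟨h1, h2⟩ := h X Y hX hY
    have hsub : {s | s ∈ Bad α β S κ c ∧ (height s.1 : ℝ) ≤ X ∧ (height s.2 : ℝ) ≤ Y} ⊆ Exc α β S κ c X Y := by
      rintro P ⟨⟨a1, a2, -, -, a5, a6⟩, a7, a8⟩
      exact ⟨a1, a2, a5, a7, a8, a6⟩
    refine ⟨h1.subset hsub, le_trans ?_ h2⟩
    exact_mod_cast Set.ncard_le_ncard hsub h1

/-- all grids at once -/
theorem all_grids (q r : ℕ) (hq : 3 ≤ q) (hqr : q ≤ r) (κ θ : ℝ) (hκ0 : 0 ≤ κ) (hκ : κ ≤ q) (hθ : 2 - 2 * κ / r < θ) :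
    ∃ Z : Set (ℝ × ℝ), dimH Z ≤ ENNReal.ofReal (1 + (2 - 2 * κ / r) / θ) ∧ ∀ z, z ∉ Z →
      ∀ (α : Fin q → ℤ × ℤ) (β : Fin r → ℤ × ℤ), Distinct α → Distinct β → ∀ (S : Finset ℕ) (c D : ℝ),
        (Bad α β S κ c ∩ Near z θ D).Finite := by
  refine ⟨⋃ i : {i : (Fin q → ℤ × ℤ) × (Fin r → ℤ × ℤ) // Distinct i.1 ∧ Distinct i.2}, ⋃ S : Finset ℕ, ⋃ n : ℕ,
    {z : ℝ × ℝ | (Bad i.1.1 i.1.2 S κ n ∩ Near z θ ((n : ℝ) + 1)).Infinite}, ?_, ?_⟩
  · rw [dimH_iUnion]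
    refine iSup_le fun i => ?_
    rw [dimH_iUnion]
    refine iSup_le fun S => ?_
    rw [dimH_iUnion]
    exact iSup_le fun n => one_grid hq hqr i.2.1 i.2.2 S κ θ n ((n : ℝ) + 1) hκ0 hκ hθ (by positivity)
  · intro z hz α β hα hβ S c D
    obtain ⟨n, hn⟩ := exists_nat_ge (max c D)
    by_contra hinf
    apply hz
    refine Set.mem_iUnion.2 ⟨⟨(α, β), hα, hβ⟩, Set.mem_iUnion.2 ⟨S, Set.mem_iUnion.2 ⟨n, ?_⟩⟩⟩
    refine Set.Infinite.mono (Set.inter_subset_inter (bad_mono α β S le_rfl ((le_max_left _ _).trans hn))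
      (near_mono ((le_max_right _ _).trans (hn.trans (by linarith))))) hinf

/-- **Theorem.** -/
theorem result :
    (∀ (q r : ℕ), 3 ≤ q → q ≤ r → ∀ κ θ : ℝ, 0 ≤ κ → κ ≤ q → 2 - 2 * κ / r < θ →
      ∃ Z : Set (ℝ × ℝ), dimH Z ≤ ENNReal.ofReal (1 + (2 - 2 * κ / r) / θ) ∧ ∀ z, z ∉ Z →
        ∀ (α : Fin q → ℤ × ℤ) (β : Fin r → ℤ × ℤ), Distinct α → Distinct β → ∀ (S : Finset ℕ) (c D : ℝ),
          (Bad α β S κ c ∩ Near z θ D).Finite) ∧
    ∀ᵐ z : ℝ × ℝ, ∀ q r : ℕ, 3 ≤ q → q ≤ r → ∀ (α : Fin q → ℤ × ℤ) (β : Fin r → ℤ × ℤ), Distinct α → Distinct β →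
      ∀ (S : Finset ℕ) (κ c D : ℝ), 0 < κ → (Bad α β S κ c ∩ Near z 2 D).Finite := by
  refine ⟨fun q r hq hqr κ θ hκ0 hκ hθ => all_grids q r hq hqr κ θ hκ0 hκ hθ, ?_⟩
  rw [ae_all_iff]
  intro q
  rw [ae_all_iff]
  intro r
  rw [ae_all_iff]
  intro hq
  rw [ae_all_iff]
  intro hqr
  have hr0 : (0 : ℝ) < r := by
    have : 0 < r := by omega
    exact_mod_cast this
  have hq1 : (3 : ℝ) ≤ q := by exact_mod_cast hq
  have h1 : ∀ m : ℕ, ∀ᵐ z : ℝ × ℝ, ∀ (α : Fin q → ℤ × ℤ) (β : Fin r → ℤ × ℤ), Distinct α → Distinct β →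
      ∀ (S : Finset ℕ) (c D : ℝ), (Bad α β S (1 / ((m : ℝ) + 1)) c ∩ Near z 2 D).Finite := by
    intro m
    have hm : 0 < 1 / ((m : ℝ) + 1) := by positivity
    have hm1 : 1 / ((m : ℝ) + 1) ≤ 1 := by
      rw [div_le_one (by positivity)]
      have : (0 : ℝ) ≤ m := by positivity
      linarith
    have hk : 0 < 2 * (1 / ((m : ℝ) + 1)) / r := by positivity
    obtain ⟨Z, hZ, hz⟩ := all_grids q r hq hqr (1 / ((m : ℝ) + 1)) 2 hm.le (by linarith) (by linarith)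
    have h2 : volume Z = 0 := by
      rw [← hausdorffMeasure_prod_real]
      refine hausdorffMeasure_of_dimH_lt (s := Z) (d := 2) (hZ.trans_lt ?_)
      have h3 : 1 + (2 - 2 * (1 / ((m : ℝ) + 1)) / r) / 2 < 2 := by linarith
      calc ENNReal.ofReal (1 + (2 - 2 * (1 / ((m : ℝ) + 1)) / r) / 2) < ENNReal.ofReal 2 :=
            (ENNReal.ofReal_lt_ofReal_iff (by norm_num)).2 h3
        _ = _ := by simp
    have h4 : ∀ᵐ z : ℝ × ℝ, z ∉ Z := by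
      rw [ae_iff]
      simpa using h2
    filter_upwards [h4] with z hzZ
    exact hz z hzZ
  rw [← ae_all_iff] at h1
  filter_upwards [h1] with z hz α β hα hβ S κ c D hκ
  obtain ⟨m, hm⟩ := exists_nat_gt (1 / κ)
  refine (hz m α β hα hβ S c D).subset (Set.inter_subset_inter (bad_mono α β S ?_ le_rfl) subset_rfl)
  rw [div_le_iff₀ (by positivity)]
  rw [div_lt_iff₀ hκ] at hm
  nlinarith

end Pool.Agent.Results.MP_542436_nt.PairsOfConvergents
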