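import Mathlib
import Pool.Agent.Q128.SDF.Grid
import Pool.Agent.Q128.SDF.PairMany

/-!
# The truncated inequality of Vojta on the product of two lines at the pairs of points composed of
numbers with small digits, over all number fields

Let `D` be the divisor on `X = ℙ¹ × ℙ¹` consisting of the fibres over three rational points
`a_0, a_1, a_2` of the first and three rational points `b_0, b_1, b_2` of the second line. It has
normal crossings and bidegree `(3, 3)`, so `H_D(α, β) = h_K(α) + h_K(β)`.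

We consider pairs `(α, β)` of elements of a number field `K` such that `α` and `β` are composed of
numbers `F_i(t)` with small digits in the same base `t`: up to a common factor the three numbers
`(a_{j+1} - a_{j+2}) (α - a_j)` are products of small numbers and of the pairwise coprime numbers
`F_i(t)`, and similarly for `β`, the exponents being arbitrary. We prove that the truncated counting
function of `D` satisfies

`N^(1)_D(α, β) + ∑ log |N F_i(t)| ≥ h_K(α) + h_K(β) + (2 - ε) log |N(t)|`,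

where the sum is over the `i` which really occur in both `α` and `β`. Hence the inequality of Vojta
holds for all these pairs if the common numbers have at most two digits more than their number, with
constants which do not depend on `K`.
-/

set_option autoImplicit false

namespace Pool.Agent.Results.MP_542436_nt.SmallDigitPairs

open IsDedekindDomain NumberField
open scoped Polynomial
open Pool.Agent.Results.MP_a793bb_nt.SmallDigitPoints (Small point unequal)
open Pool.Agent.Results.MP_71c16a_nt.SmallDigitPoints (Belongs)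

/-- `h_K(x)`, the logarithmic height relative to `K` -/
noncomputable def height {K : Type} [Field K] [NumberField K] (x : K) : ℝ :=
  ∑ w : InfinitePlace K, (w.mult : ℝ) * Real.log (max (w x) 1) +
    ∑ᶠ v : HeightOneSpectrum (𝓞 K), Real.log (max (FinitePlace.mk v x) 1)

/-- The value at `([x : 1], [y : 1])` of the equation
`∏_j (u_j s_1 - w_j s_0) ∏_j (u'_j t_1 - w'_j t_0)` of `D`, where `a_j = u_j / w_j` and
`b_j = u'_j / w'_j` in lowest terms. -/
def equation {K : Type} [Field K] (a b : Fin 3 → ℚ) (x y : K) : K :=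
  (∏ j, (((a j).num : K) - x * ((a j).den : K))) * ∏ j, (((b j).num : K) - y * ((b j).den : K))

/-- The local height `λ_{D, v} = -log (|F(s, t)| / (max |s_i| ^ 3 max |t_i| ^ 3))` at the prime `v`
of the point `([x : 1], [y : 1])`. -/
noncomputable def localHeight {K : Type} [Field K] [NumberField K] (a b : Fin 3 → ℚ)
    (v : HeightOneSpectrum (𝓞 K)) (x y : K) : ℝ :=
  -Real.log (FinitePlace.mk v (equation a b x y) /
    (max (FinitePlace.mk v x) 1 ^ 3 * max (FinitePlace.mk v y) 1 ^ 3))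

/-- The truncated counting function `N^(1)_D(x, y)`, the sum over all primes `v` of
`min (log N(v)) λ_{D, v}`. -/
noncomputable def counting {K : Type} [Field K] [NumberField K] (a b : Fin 3 → ℚ) (x y : K) : ℝ :=
  ∑ᶠ v : HeightOneSpectrum (𝓞 K),
    min (Real.log (Ideal.absNorm v.asIdeal : ℝ)) (localHeight a b v x y)

/-- `log |N(y)|` -/
noncomputable def logNorm {K : Type} [Field K] [NumberField K] (y : 𝓞 K) : ℝ :=
  Real.log |((Algebra.norm ℚ (y : K) : ℚ) : ℝ)|

/-- The points `x` and `y` of the lines are composed of the numbers `F_i(t)`: up to a common factor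
the three numbers `(a_{j+1} - a_{j+2}) (x - a_j)` are the numbers `c_j ∏_i F_i(t) ^ e_{j i}`, and
similarly `y` with `b`, `c'`, `e'`. The base `t`, the numbers `F_i(t)` and the coefficients are as in
`Small`, and the product of the `F_i(t)` with unequal exponents is squarefree for both points. -/
def Composed {K : Type} [Field K] [NumberField K] (a b : Fin 3 → ℚ) (D : ℕ) (δ T : ℝ) {n : ℕ}
    (t : 𝓞 K) (F : Fin n → (𝓞 K)[X]) (e e' : Fin 3 → Fin n → ℕ) (x y : K) : Prop :=
  ∃ c c' : Fin 3 → 𝓞 K, Small D δ T t F c e ∧ Small D δ T t F c' e' ∧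
    (unequal e).Nonempty ∧ (unequal e').Nonempty ∧
    Squarefree (Ideal.span {∏ i ∈ unequal e, (F i).eval t}) ∧
    Squarefree (Ideal.span {∏ i ∈ unequal e', (F i).eval t}) ∧
    Belongs a (point t F c e) x ∧ Belongs b (point t F c' e') y

section

open Pool.Agent.Q128.SDF Pool.Agent.W223.CV
open Pool.Agent.W223.AC (pt)

private lemma height_eq {K : Type} [Field K] [NumberField K] (x : K) :
    Height.logHeight₁ x = height x := by
  have hd : (Module.finrank ℚ K : ℝ) ≠ 0 := by
    exact_mod_cast (Module.finrank_pos (R := ℚ) (M := K)).ne'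
  have h1 : Height.logHeight₁ x = Module.finrank ℚ K *
      Pool.Agent.Results.MP_71c16a_nt.AllCurvesProximity.height x :=
    Pool.Agent.W223.AC.MK.height_eq x
  rw [h1]
  unfold Pool.Agent.Results.MP_71c16a_nt.AllCurvesProximity.height height
  rw [← mul_assoc, mul_one_div_cancel hd, one_mul]
  congr 1
  · exact Finset.sum_congr rfl fun w _ => by rw [max_comm]
  · exact finsum_congr fun v => by rw [max_comm]

private lemma lin_eq {K : Type} [Field K] [NumberField K] (a : ℚ) (x : K) :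
    lin (pt a) x = (a.num : K) - x * (a.den : K) := by
  show ((a.num : ℤ) : K) - x * (((a.den : ℕ) : ℤ) : K) = (a.num : K) - x * (a.den : K)
  push_cast
  rfl

/-- the part of the local height belonging to one line -/
private noncomputable def lam {K : Type} [Field K] [NumberField K] (a : Fin 3 → ℚ)
    (v : HeightOneSpectrum (𝓞 K)) (x : K) : ℝ :=
  ∑ j, (Real.log (max (FinitePlace.mk v x) 1) - Real.log (FinitePlace.mk v (lin (pt (a j)) x)))

private lemma local_eq {K : Type} [Field K] [NumberField K] (a b : Fin 3 → ℚ)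
    (v : HeightOneSpectrum (𝓞 K)) {x y : K} (hx : ∀ j, x ≠ (a j : K)) (hy : ∀ j, y ≠ (b j : K)) :
    localHeight a b v x y = lam a v x + lam b v y := by
  have h1 : ∀ j, FinitePlace.mk v (lin (pt (a j)) x) ≠ 0 := fun j =>
    (map_ne_zero _).2 (lin_ne (hx j))
  have h2 : ∀ j, FinitePlace.mk v (lin (pt (b j)) y) ≠ 0 := fun j =>
    (map_ne_zero _).2 (lin_ne (hy j))
  have m1 : max (FinitePlace.mk v x) 1 ≠ 0 := (lt_max_of_lt_right one_pos).ne'
  have m2 : max (FinitePlace.mk v y) 1 ≠ 0 := (lt_max_of_lt_right one_pos).ne'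
  have e : FinitePlace.mk v (equation a b x y) =
      (∏ j, FinitePlace.mk v (lin (pt (a j)) x)) * ∏ j, FinitePlace.mk v (lin (pt (b j)) y) := by
    unfold equation
    rw [map_mul, map_prod, map_prod]
    congr 1
    · exact Finset.prod_congr rfl fun j _ => by rw [lin_eq]
    · exact Finset.prod_congr rfl fun j _ => by rw [lin_eq]
  unfold localHeight lam
  rw [e, Real.log_div (mul_ne_zero (Finset.prod_ne_zero_iff.2 fun j _ => h1 j)
    (Finset.prod_ne_zero_iff.2 fun j _ => h2 j)) (mul_ne_zero (pow_ne_zero _ m1) (pow_ne_zero _ m2)),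
    Real.log_mul (Finset.prod_ne_zero_iff.2 fun j _ => h1 j)
    (Finset.prod_ne_zero_iff.2 fun j _ => h2 j), Real.log_mul (pow_ne_zero _ m1) (pow_ne_zero _ m2),
    Real.log_pow, Real.log_pow, Real.log_prod (fun j _ => h1 j), Real.log_prod (fun j _ => h2 j),
    Finset.sum_sub_distrib, Finset.sum_sub_distrib]
  simp only [Finset.sum_const, Finset.card_univ, Fintype.card_fin, nsmul_eq_mul]
  push_cast
  ring

private lemma term_nonneg {K : Type} [Field K] [NumberField K] (a : ℚ)
    (v : HeightOneSpectrum (𝓞 K)) {x : K} (hx : x ≠ (a : K)) :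
    0 ≤ Real.log (max (FinitePlace.mk v x) 1) - Real.log (FinitePlace.mk v (lin (pt a) x)) := by
  have h1 : 0 < FinitePlace.mk v (lin (pt a) x) :=
    lt_of_le_of_ne (apply_nonneg _ _) (Ne.symm ((map_ne_zero _).2 (lin_ne hx)))
  have := Real.log_le_log h1 (lin_le_fp a x v)
  linarith

private lemma lam_nonneg {K : Type} [Field K] [NumberField K] (a : Fin 3 → ℚ)
    (v : HeightOneSpectrum (𝓞 K)) {x : K} (hx : ∀ j, x ≠ (a j : K)) : 0 ≤ lam a v x :=
  Finset.sum_nonneg fun j _ => term_nonneg (a j) v (hx j)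

private lemma lam_meets {K : Type} [Field K] [NumberField K] (a : Fin 3 → ℚ)
    (v : HeightOneSpectrum (𝓞 K)) {x : K} (hx : ∀ j, x ≠ (a j : K)) (h : Meets a x v) :
    Real.log (Ideal.absNorm v.asIdeal : ℝ) ≤ lam a v x := by
  obtain ⟨j, hj, hn⟩ := h
  refine le_trans ?_ (Finset.single_le_sum (f := fun j => Real.log (max (FinitePlace.mk v x) 1) -
    Real.log (FinitePlace.mk v (lin (pt (a j)) x))) (fun i _ => term_nonneg (a i) v (hx i)) hj)
  have h1 : 0 < FinitePlace.mk v (lin (pt (a j)) x) :=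
    lt_of_le_of_ne (apply_nonneg _ _) (Ne.symm ((map_ne_zero _).2 (lin_ne (hx j))))
  have hN : (0 : ℝ) < Ideal.absNorm v.asIdeal := by
    have := Pool.Agent.Q103.SD.NF.one_le_absNorm v
    linarith
  have h2 := Real.log_le_log (mul_pos h1 hN) (near_fp (a j) x v hn)
  rw [Real.log_mul h1.ne' hN.ne'] at h2
  show Real.log (Ideal.absNorm v.asIdeal : ℝ) ≤ Real.log (max (FinitePlace.mk v x) 1) -
    Real.log (FinitePlace.mk v (lin (pt (a j)) x))
  linarith

private lemma lam_finite {K : Type} [Field K] [NumberField K] (a : Fin 3 → ℚ) {x : K}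
    (hx : ∀ j, x ≠ (a j : K)) : {v : HeightOneSpectrum (𝓞 K) | lam a v x ≠ 0}.Finite := by
  have h1 : {v : HeightOneSpectrum (𝓞 K) | lam a v x ≠ 0} ⊆
      {v | max (FinitePlace.mk v x) 1 ≠ 1} ∪ ⋃ j, {v | FinitePlace.mk v (lin (pt (a j)) x) ≠ 1} := by
    intro v hv
    by_contra hcon
    rw [Set.mem_union, Set.mem_iUnion, not_or, not_exists] at hcon
    obtain ⟨h2, h3⟩ := hcon
    have h2' : max (FinitePlace.mk v x) 1 = 1 := not_not.1 h2
    have h3' : ∀ j, FinitePlace.mk v (lin (pt (a j)) x) = 1 := fun j => not_not.1 (h3 j)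
    apply hv
    unfold lam
    rw [h2']
    simp only [h3']
    simp
  exact ((fp_max_finite x).union (Set.finite_iUnion fun j => fp_ne_finite (lin_ne (hx j)))).subset h1

/-- the truncated counting function counts the primes which meet the grid -/
private lemma counting_ge {K : Type} [Field K] [NumberField K] (a b : Fin 3 → ℚ) {x y : K}
    (hx : ∀ j, x ≠ (a j : K)) (hy : ∀ j, y ≠ (b j : K)) :
    cc ∅ (fun v => Meets a x v ∨ Meets b y v) ≤ counting a b x y := by
  unfold cc counting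
  refine finsum_le_finsum' (ct_support ∅ ((meets_finite hx).union (meets_finite hy))) ?_ ?_
  · refine ((lam_finite a hx).union (lam_finite b hy)).subset ?_
    intro v hv
    by_contra hcon
    rw [Set.mem_union, not_or] at hcon
    obtain ⟨h2, h3⟩ := hcon
    have h2' : lam a v x = 0 := not_not.1 h2
    have h3' : lam b v y = 0 := not_not.1 h3
    rw [Function.mem_support] at hv
    apply hv
    rw [local_eq a b v hx hy, h2', h3', add_zero]
    exact min_eq_right (log_norm_nonneg v)
  · intro v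
    show ct ∅ (fun v => Meets a x v ∨ Meets b y v) v ≤
      min (Real.log (Ideal.absNorm v.asIdeal : ℝ)) (localHeight a b v x y)
    rw [local_eq a b v hx hy]
    have h1 := lam_nonneg a v hx
    have h2 := lam_nonneg b v hy
    have h0 : ∀ p ∈ (∅ : Finset ℕ), (p : 𝓞 K) ∉ v.asIdeal := by simp
    by_cases h : Meets a x v ∨ Meets b y v
    · rw [ct_pos (A := fun v => Meets a x v ∨ Meets b y v) ⟨h0, h⟩]
      refine le_min le_rfl ?_
      rcases h with h | h
      · have := lam_meets a v hx h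
        linarith
      · have := lam_meets b v hy h
        linarith
    · rw [ct_neg (A := fun v => Meets a x v ∨ Meets b y v) fun h' => h h'.2]
      exact le_min (log_norm_nonneg v) (by linarith)

private lemma main (a b : Fin 3 → ℚ) (ha : Function.Injective a) (hb : Function.Injective b)
    (D : ℕ) (ε : ℝ) (hε : 0 < ε) : ∃ δ : ℝ, 0 < δ ∧ ∃ T₀ : ℝ, 1 ≤ T₀ ∧ ∀ T : ℝ, T₀ ≤ T →
    ∀ (K : Type) [Field K] [NumberField K] (n : ℕ) (t : 𝓞 K) (F : Fin n → (𝓞 K)[X])
      (e e' : Fin 3 → Fin n → ℕ) (x y : K), Composed a b D δ T t F e e' x y →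
      height x + height y + (2 - ε) * logNorm t ≤
        counting a b x y + ∑ i ∈ unequal e ∩ unequal e', logNorm ((F i).eval t) ∧
      (∑ i ∈ unequal e ∩ unequal e', (F i).natDegree ≤ 2 →
        ∑ i ∈ unequal e ∩ unequal e', logNorm ((F i).eval t) ≤ (2 + ε) * logNorm t) ∧
      0 ≤ logNorm t ∧ logNorm t ≤ 4 * height x ∧ logNorm t ≤ 4 * height y := by
  obtain ⟨η, hη⟩ : ∃ η : ℝ, η = min ε 1 / 4 := ⟨_, rfl⟩
  have hη0 : 0 < η := by rw [hη]; positivity
  have hηε : 4 * η ≤ ε := by
    rw [hη]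
    have := min_le_left ε 1
    linarith
  have hη1 : 4 * η ≤ 1 := by
    rw [hη]
    have := min_le_right ε 1
    linarith
  obtain ⟨δ₁, hδ₁, T₁, hT₁, h1⟩ := line a ha D η hη0
  obtain ⟨δ₂, hδ₂, T₂, hT₂, h2⟩ := line b hb D η hη0
  obtain ⟨δ, hδ⟩ : ∃ δ : ℝ, δ = min (min δ₁ δ₂) (η / 6) := ⟨_, rfl⟩
  have hδ0 : 0 < δ := by
    rw [hδ]
    exact lt_min (lt_min hδ₁ hδ₂) (by positivity)
  have d1 : δ ≤ δ₁ := by rw [hδ]; exact (min_le_left _ _).trans (min_le_left _ _)
  have d2 : δ ≤ δ₂ := by rw [hδ]; exact (min_le_left _ _).trans (min_le_right _ _)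
  have d3 : δ ≤ η / 6 := by rw [hδ]; exact min_le_right _ _
  obtain ⟨C, hC⟩ : ∃ C : ℝ, C = Real.log (Pool.Agent.W337.AC.MOBC.MM a ∅ : ℕ) +
    Real.log (Pool.Agent.W337.AC.MOBC.MM b ∅ : ℕ) := ⟨_, rfl⟩
  obtain ⟨C', hC'⟩ : ∃ C' : ℝ, C' = 2 * Real.log (D + 1) := ⟨_, rfl⟩
  refine ⟨δ, hδ0, max (max T₁ T₂) (Real.exp (max C C' / η)),
    hT₁.trans ((le_max_left _ _).trans (le_max_left _ _)), ?_⟩
  rintro T hT K _ _ n t F e e' x y ⟨c, c', hs, hs', hU, hU', hq, hq', hx, hy⟩
  have hTT₁ : T₁ ≤ T := ((le_max_left _ _).trans (le_max_left _ _)).trans hT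
  have hTT₂ : T₂ ≤ T := ((le_max_right _ _).trans (le_max_left _ _)).trans hT
  have hT1 : 1 ≤ T := hT₁.trans hTT₁
  have hlogT : max C C' ≤ η * Real.log T := by
    have h3 := Real.log_le_log (Real.exp_pos _) ((le_max_right _ _).trans hT)
    rw [Real.log_exp, div_le_iff₀ hη0] at h3
    linarith
  have hCT := (le_max_left C C').trans hlogT
  have hCT' := (le_max_right C C').trans hlogT
  obtain ⟨x1, x2, x3, x4, x5⟩ := h1 T hTT₁ K t _ x
    ⟨n, F, c, e, small_mono hT1 d1 hs, hU, hq, rfl⟩ hx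
  obtain ⟨y1, y2, y3, y4, y5⟩ := h2 T hTT₂ K t _ y
    ⟨n, F, c', e', small_mono hT1 d2 hs', hU', hq', rfl⟩ hy
  have hlN : Pool.Agent.Q103.SDJ.lN t = logNorm t := rfl
  rw [hlN] at x3 x4 x5 y4 y5
  rw [height_eq] at x4 x5 y4 y5
  have hd : (0 : ℝ) < Module.finrank ℚ K := by exact_mod_cast Module.finrank_pos
  have hlT : 0 ≤ Real.log T := Real.log_nonneg hT1
  have hN0 : 0 ≤ logNorm t := le_trans (mul_nonneg hd.le hlT) x3
  have ht0 : t ≠ 0 := by
    rintro rfl
    obtain ⟨σ⟩ : Nonempty (K →+* ℂ) := inferInstance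
    have h1 := hs.base σ
    simp at h1
    linarith
  have hF0 : ∀ i ∈ unequal e ∩ unequal e', (F i).eval t ≠ 0 := by
    intro i hi h0
    have h3 : ∏ i ∈ unequal e, (F i).eval t = 0 :=
      Finset.prod_eq_zero (Finset.mem_inter.1 hi).1 h0
    rw [h3, Ideal.span_singleton_eq_bot.2 rfl] at hq
    exact not_squarefree_zero hq
  have k1 := common ha hb hT1 hs hs' hx hy hF0
  have k2 := cc_two (meets_finite x1) (meets_finite y1)
  have k3 := counting_ge a b x1 y1
  rw [cnt_eq] at x4 y4
  have x4' : height x + (1 - η) * logNorm t ≤ cc ∅ (fun v => Meets a x v) := x4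
  have y4' : height y + (1 - η) * logNorm t ≤ cc ∅ (fun v => Meets b y v) := y4
  have k2' : cc ∅ (fun v => Meets a x v) + cc ∅ (fun v => Meets b y v) ≤
    cc ∅ (fun v => Meets a x v ∨ Meets b y v) + cc ∅ (fun v => Meets a x v ∧ Meets b y v) := k2
  have k1' : cc ∅ (fun v => Meets a x v ∧ Meets b y v) ≤
      ∑ i ∈ unequal e ∩ unequal e', logNorm ((F i).eval t) +
        Module.finrank ℚ K * (C + 6 * (δ * Real.log T)) := by
    rw [hC]
    exact k1
  have k4 : 6 * (δ * Real.log T) ≤ η * Real.log T := by nlinarith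
  have k5 : (Module.finrank ℚ K : ℝ) * (C + 6 * (δ * Real.log T)) ≤ 2 * η * logNorm t := by
    calc (Module.finrank ℚ K : ℝ) * (C + 6 * (δ * Real.log T)) ≤
          Module.finrank ℚ K * (2 * η * Real.log T) :=
          mul_le_mul_of_nonneg_left (by linarith) hd.le
      _ = 2 * η * (Module.finrank ℚ K * Real.log T) := by ring
      _ ≤ 2 * η * logNorm t := mul_le_mul_of_nonneg_left x3 (by positivity)
  have k6 : 4 * η * logNorm t ≤ ε * logNorm t := mul_le_mul_of_nonneg_right hηε hN0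
  refine ⟨?_, ?_, hN0, ?_, ?_⟩
  · nlinarith
  · intro hdeg
    have hcard : (unequal e ∩ unequal e').card ≤ 2 := by
      refine le_trans ?_ hdeg
      rw [Finset.card_eq_sum_ones]
      exact Finset.sum_le_sum fun i _ => hs.two_digits i
    have k7 : ∑ i ∈ unequal e ∩ unequal e', logNorm ((F i).eval t) ≤
        ∑ i ∈ unequal e ∩ unequal e', (((F i).natDegree : ℝ) * logNorm t +
          Module.finrank ℚ K * (Real.log (D + 1) + δ * Real.log T)) :=
      Finset.sum_le_sum fun i hi => nl_eval_le hT1 hs ht0 i (hF0 i hi)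
    rw [Finset.sum_add_distrib, ← Finset.sum_mul, Finset.sum_const, nsmul_eq_mul] at k7
    have k8 : (∑ i ∈ unequal e ∩ unequal e', ((F i).natDegree : ℝ)) * logNorm t ≤ 2 * logNorm t := by
      apply mul_le_mul_of_nonneg_right _ hN0
      exact_mod_cast hdeg
    have hD1 : 0 ≤ Real.log ((D : ℝ) + 1) := Real.log_nonneg (by
      have : (0 : ℝ) ≤ D := Nat.cast_nonneg D
      linarith)
    have hδT : 0 ≤ δ * Real.log T := mul_nonneg hδ0.le hlT
    have hc2 : ((unequal e ∩ unequal e').card : ℝ) ≤ 2 := by exact_mod_cast hcard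
    have k9 : ((unequal e ∩ unequal e').card : ℝ) *
        (Module.finrank ℚ K * (Real.log (D + 1) + δ * Real.log T)) ≤
        2 * (Module.finrank ℚ K * (Real.log (D + 1) + δ * Real.log T)) :=
      mul_le_mul_of_nonneg_right hc2 (mul_nonneg hd.le (add_nonneg hD1 hδT))
    have k10 : 2 * ((Module.finrank ℚ K : ℝ) * (Real.log (D + 1) + δ * Real.log T)) ≤
        2 * η * logNorm t := by
      calc 2 * ((Module.finrank ℚ K : ℝ) * (Real.log (D + 1) + δ * Real.log T)) =
            Module.finrank ℚ K * (C' + 2 * (δ * Real.log T)) := by rw [hC']; ring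
        _ ≤ Module.finrank ℚ K * (2 * η * Real.log T) :=
            mul_le_mul_of_nonneg_left (by nlinarith) hd.le
        _ = 2 * η * (Module.finrank ℚ K * Real.log T) := by ring
        _ ≤ 2 * η * logNorm t := mul_le_mul_of_nonneg_left x3 (by positivity)
    have k11 : 2 * η * logNorm t ≤ ε * logNorm t :=
      mul_le_mul_of_nonneg_right (by linarith) hN0
    linarith
  · nlinarith
  · nlinarith

end

/-- **The truncated inequality of Vojta at the pairs composed of numbers with small digits.** Let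
`a_0, a_1, a_2` and `b_0, b_1, b_2` be two triples of distinct rational numbers and `D` the grid of
bidegree `(3, 3)` belonging to them.

(1) For all `D` and `ε > 0` there are `δ > 0` and `T₀` such that for all `T ≥ T₀`, all number fields
`K` and all pairs `(x, y)` of elements of `K` composed of numbers `F_i(t)` with small digits, with
exponents `e` for `x` and `e'` for `y`,
`h_K(x) + h_K(y) + (2 - ε) log |N(t)| ≤ N^(1)_D(x, y) + ∑ log |N(F_i(t))|`,
the sum being over the `i` with unequal exponents in both points.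

(2) If the degrees of the `F_i` in this sum add up to at most `2`, then, for suitable `δ` and `T₀`,
`(1 - ε) (h_K(x) + h_K(y)) ≤ N^(1)_D(x, y)`.

(3) For all `D ≥ 3`, `δ > 0`, `T ≥ 1` and all large `B` at least `c B` pairs of rational numbers of
height at most `log B` satisfy the conditions of (2), where `c > 0` depends only on `a` and `b`. -/
theorem result (a b : Fin 3 → ℚ) (ha : Function.Injective a) (hb : Function.Injective b) :
    (∀ (D : ℕ) (ε : ℝ), 0 < ε → ∃ δ : ℝ, 0 < δ ∧ ∃ T₀ : ℝ, 1 ≤ T₀ ∧ ∀ T : ℝ, T₀ ≤ T →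
      ∀ (K : Type) [Field K] [NumberField K] (n : ℕ) (t : 𝓞 K) (F : Fin n → (𝓞 K)[X])
        (e e' : Fin 3 → Fin n → ℕ) (x y : K), Composed a b D δ T t F e e' x y →
        height x + height y + (2 - ε) * logNorm t ≤
          counting a b x y + ∑ i ∈ unequal e ∩ unequal e', logNorm ((F i).eval t)) ∧
    (∀ (D : ℕ) (ε : ℝ), 0 < ε → ∃ δ : ℝ, 0 < δ ∧ ∃ T₀ : ℝ, 1 ≤ T₀ ∧ ∀ T : ℝ, T₀ ≤ T →
      ∀ (K : Type) [Field K] [NumberField K] (n : ℕ) (t : 𝓞 K) (F : Fin n → (𝓞 K)[X])
        (e e' : Fin 3 → Fin n → ℕ) (x y : K), Composed a b D δ T t F e e' x y →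
        ∑ i ∈ unequal e ∩ unequal e', (F i).natDegree ≤ 2 →
        (1 - ε) * (height x + height y) ≤ counting a b x y) ∧
    (∃ c : ℝ, 0 < c ∧ ∀ (D : ℕ) (δ T : ℝ), 3 ≤ D → 0 < δ → 1 ≤ T → ∃ B₀ : ℝ, ∀ B : ℝ, B₀ ≤ B →
      ∃ E : Finset (ℚ × ℚ), c * B ≤ E.card ∧ ∀ z ∈ E, height z.1 ≤ Real.log B ∧
        height z.2 ≤ Real.log B ∧ ∃ (n : ℕ) (t : 𝓞 ℚ) (F : Fin n → (𝓞 ℚ)[X])
          (e e' : Fin 3 → Fin n → ℕ), Composed a b D δ T t F e e' z.1 z.2 ∧
          ∑ i ∈ unequal e ∩ unequal e', (F i).natDegree ≤ 2) := by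
  refine ⟨?_, ?_, ?_⟩
  · intro D ε hε
    obtain ⟨δ, hδ, T₀, hT₀, h⟩ := main a b ha hb D ε hε
    exact ⟨δ, hδ, T₀, hT₀, fun T hT K _ _ n t F e e' x y hxy =>
      (h T hT K n t F e e' x y hxy).1⟩
  · intro D ε hε
    obtain ⟨δ, hδ, T₀, hT₀, h⟩ := main a b ha hb D (ε / 4) (by positivity)
    refine ⟨δ, hδ, T₀, hT₀, ?_⟩
    intro T hT K _ _ n t F e e' x y hxy hdeg
    obtain ⟨h1, h2, h3, h4, h5⟩ := h T hT K n t F e e' x y hxy
    have h6 := h2 hdeg
    nlinarith
  · obtain ⟨c, hc, h⟩ := Pool.Agent.Q128.SDF.many_pairs a b ha hb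
    refine ⟨c, hc, fun D δ T hD hδ hT => ?_⟩
    obtain ⟨X₀, h1⟩ := h D δ T hD hδ hT
    refine ⟨X₀, fun B hB => ?_⟩
    obtain ⟨E, hE, h2⟩ := h1 B hB
    refine ⟨E, hE, fun z hz => ?_⟩
    obtain ⟨h3, h4, t, h5, h6, h7, h8, h9, h10⟩ := h2 z hz
    rw [height_eq] at h3 h4
    refine ⟨h3, h4, 3, t, Pool.Agent.Q128.SDF.F3, Pool.Agent.Q128.SDF.ea, Pool.Agent.Q128.SDF.eb,
      ⟨Pool.Agent.Q128.SDF.bb3, Pool.Agent.Q128.SDF.bb3, h5, h6, ?_, ?_, h7, h8, h9, h10⟩,
      Pool.Agent.Q128.SDF.common_deg⟩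
    · rw [Pool.Agent.Q128.SDF.unequal_a]
      exact ⟨0, by simp⟩
    · rw [Pool.Agent.Q128.SDF.unequal_b]
      exact ⟨0, by simp⟩

end Pool.Agent.Results.MP_542436_nt.SmallDigitPairs
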