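import Pool.Agent.Q183.AM.Cartan7
import Pool.Agent.Q183.AM.Forms

/-!
# The truncated inequality of Vojta on the product of two lines along linear recurrences

Let `K` be a number field and `D` a divisor on `X = ℙ¹ × ℙ¹` which is the sum of `q` fibres over
points of the first and `r` fibres over points of the second line, so that
`H_D(α, β) = (q - 2) h_K(α) + (r - 2) h_K(β)`. Let `α_s`, `β_s` be points of the line whose
coordinates are sequences of integers of `K` with linear recurrences with constant coefficients, such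
that the values of the `q + r` equations of `D` are products `κ μ ^ s ∏ g_j(s) ^ e_j` of powers of
such sequences `g_j`, with arbitrary exponents.

We show the inequality of Vojta `H_D(α_s, β_s) ≤ N^(1)_D(α_s, β_s) + log N 𝔟 + C`, where the product
of the different `g_j(s)` is the product of a squarefree ideal and of an ideal `𝔟` prime to it, for
almost all `s`, without an `ε`, and with `C + ε s` for all `s`, hence with
`C + ε (h_K(α_s) + h_K(β_s))` for all `s` with `h_K(α_s) + h_K(β_s) ≥ c s`. There is no exceptional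
set.
-/

set_option autoImplicit false

namespace Pool.Agent.Results.MP_542436_nt.TruncatedAlongRecurrences

open IsDedekindDomain NumberField

variable {K : Type} [Field K] [NumberField K] {I I' J J' : Type} [Fintype I] [Fintype I']
  [Fintype J] [Fintype J']

/-- `κ_i μ_i ^ s ∏ g_j(s) ^ e_ij` -/
def val (κ μ : I → 𝓞 K) (g : J → ℕ → 𝓞 K) (e : I → J → ℕ) (i : I) (s : ℕ) : 𝓞 K :=
  κ i * μ i ^ s * ∏ j, g j s ^ e i j

open Classical in
/-- the indices `j` of the bases whose exponents `e_ij` are not all equal -/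
noncomputable def uneq (e : I → J → ℕ) : Finset J :=
  Finset.univ.filter fun j => ∃ i i', e i j ≠ e i' j

/-- `h_K([x_0 : x_1])`, the logarithmic height relative to `K` -/
noncomputable def height (x : Fin 2 → K) : ℝ :=
  ∑ w : InfinitePlace K, (w.mult : ℝ) * Real.log (max (w (x 0)) (w (x 1))) +
    ∑ᶠ v : HeightOneSpectrum (𝓞 K),
      Real.log (max (FinitePlace.mk v (x 0)) (FinitePlace.mk v (x 1)))

/-- the value at `(x, y)` of the equation `∏ (a_i0 x_0 + a_i1 x_1) ∏ (b_i0 y_0 + b_i1 y_1)` of `D` -/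
def equation (a : I → Fin 2 → K) (b : I' → Fin 2 → K) (x y : Fin 2 → K) : K :=
  (∏ i, (a i 0 * x 0 + a i 1 * x 1)) * ∏ i, (b i 0 * y 0 + b i 1 * y 1)

/-- the local height `λ_{D, v} = -log (|F(x, y)| / (max |x_i| ^ q max |y_i| ^ r))` at the prime `v` -/
noncomputable def localHeight (a : I → Fin 2 → K) (b : I' → Fin 2 → K)
    (v : HeightOneSpectrum (𝓞 K)) (x y : Fin 2 → K) : ℝ :=
  -Real.log (FinitePlace.mk v (equation a b x y) /
    (max (FinitePlace.mk v (x 0)) (FinitePlace.mk v (x 1)) ^ Fintype.card I *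
      max (FinitePlace.mk v (y 0)) (FinitePlace.mk v (y 1)) ^ Fintype.card I'))

/-- the truncated counting function `N^(1)_D(x, y)`, the sum over all primes `v` of
`min (log N(v)) λ_{D, v}` -/
noncomputable def counting (a : I → Fin 2 → K) (b : I' → Fin 2 → K) (x y : Fin 2 → K) : ℝ :=
  ∑ᶠ v : HeightOneSpectrum (𝓞 K),
    min (Real.log (Ideal.absNorm v.asIdeal : ℝ)) (localHeight a b v x y)

/-- The inequality of Vojta at `(x, y)`, where `P` is the product of the different bases: if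
`(P) = 𝔞 𝔟` with a squarefree ideal `𝔞` prime to `𝔟`, then
`(q - 2) h_K(x) + (r - 2) h_K(y) ≤ N^(1)_D(x, y) + log N 𝔟 + C`. -/
def Vojta (a : I → Fin 2 → K) (b : I' → Fin 2 → K) (P : 𝓞 K) (x y : Fin 2 → K) (C : ℝ) : Prop :=
  ∀ 𝔞 𝔟 : Ideal (𝓞 K), Ideal.span {P} = 𝔞 * 𝔟 → Squarefree 𝔞 → IsCoprime 𝔞 𝔟 →
    ((Fintype.card I : ℝ) - 2) * height x + ((Fintype.card I' : ℝ) - 2) * height y ≤
      counting a b x y + Real.log (Ideal.absNorm 𝔟) + C

private theorem iSup_two (f : Fin 2 → ℝ) : ⨆ k, f k = max (f 0) (f 1) := by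
  refine le_antisymm (ciSup_le fun k => ?_) (max_le ?_ ?_)
  · fin_cases k
    · exact le_max_left _ _
    · exact le_max_right _ _
  · exact le_ciSup (f := f) (Set.finite_range _).bddAbove 0
  · exact le_ciSup (f := f) (Set.finite_range _).bddAbove 1

private theorem height_eq (x : Fin 2 → 𝓞 K) (hx : x ≠ 0) :
    Height.logHeight (fun k => (x k : K)) = height fun k => (x k : K) := by
  rw [Pool.Agent.Q183.AM.logHeight_sum (n := 1) x hx]
  unfold height
  congr 1
  · exact Finset.sum_congr rfl fun w _ => by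
      rw [iSup_two (fun k => w (x k : K))]
  · exact finsum_congr fun v => by
      rw [iSup_two (fun k => FinitePlace.mk v (x k : K))]

private theorem siz_eq (v : HeightOneSpectrum (𝓞 K)) (x : Fin 2 → K) :
    Pool.Agent.Q183.AM.siz (n := 1) v x = max (FinitePlace.mk v (x 0)) (FinitePlace.mk v (x 1)) :=
  iSup_two fun k => FinitePlace.mk v (x k)

private theorem local_eq (a : I → Fin 2 → 𝓞 K) (b : I' → Fin 2 → 𝓞 K) (v : HeightOneSpectrum (𝓞 K))
    (x y : Fin 2 → 𝓞 K) :
    -Real.log (Pool.Agent.Q183.AM.rel v a x * Pool.Agent.Q183.AM.rel v b y) =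
      localHeight (fun i k => (a i k : K)) (fun i k => (b i k : K)) v (fun k => (x k : K))
        (fun k => (y k : K)) := by
  unfold localHeight equation Pool.Agent.Q183.AM.rel
  congr 2
  rw [Finset.prod_div_distrib, Finset.prod_div_distrib, Finset.prod_const, Finset.prod_const,
    Finset.card_univ, Finset.card_univ, siz_eq, siz_eq, map_mul, map_prod, map_prod, div_mul_div_comm]
  simp only [map_add, map_mul]

private theorem vojta_of {g : J → ℕ → 𝓞 K} {g' : J' → ℕ → 𝓞 K}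
    {e : I → J → ℕ} {e' : I' → J' → ℕ} {X Y : Fin 2 → ℕ → 𝓞 K}
    {a : I → Fin 2 → 𝓞 K} {b : I' → Fin 2 → 𝓞 K} {C : ℝ} (hC : 0 ≤ C) {s : ℕ}
    (hx : (fun k => X k s) ≠ 0) (hy : (fun k => Y k s) ≠ 0)
    (h : Pool.Agent.Q183.AM.GIneq a b g g' e e' X Y (Real.exp C) s) :
    Vojta (fun i k => (a i k : K)) (fun i k => (b i k : K))
      ((∏ j ∈ uneq e, g j s) * ∏ j ∈ uneq e', g' j s) (fun k => (X k s : K))
      (fun k => (Y k s : K)) C := by
  intro 𝔞 𝔟 h1 h2 h3
  have h4 : ((Fintype.card I : ℝ) - 2) * Height.logHeight (fun k => (X k s : K)) +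
      ((Fintype.card I' : ℝ) - 2) * Height.logHeight (fun k => (Y k s : K)) ≤
      Pool.Agent.Q183.AM.NG a b (fun k => X k s) (fun k => Y k s) +
        Real.log (Ideal.absNorm 𝔟) + Real.log (max (Real.exp C) 1) := h 𝔞 𝔟 h1 h2 h3
  rw [max_eq_left (Real.one_le_exp hC), Real.log_exp, height_eq (fun k => X k s) hx,
    height_eq (fun k => Y k s) hy] at h4
  have h5 : Pool.Agent.Q183.AM.NG a b (fun k => X k s) (fun k => Y k s) =
      counting (fun i k => (a i k : K)) (fun i k => (b i k : K)) (fun k => (X k s : K))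
        (fun k => (Y k s : K)) := by
    unfold Pool.Agent.Q183.AM.NG counting
    exact finsum_congr fun v => by rw [local_eq]
  rw [h5] at h4
  exact h4

/-- **Main theorem.** Let the coordinates `X_k`, `Y_k` and the bases `g_j`, `g'_j` have linear
recurrences, and let the values of the equations of `D` at `(α_s, β_s)` be the
`κ_i μ_i ^ s ∏ g_j(s) ^ e_ij` and `κ'_i μ'_i ^ s ∏ g'_j(s) ^ e'_ij`. Let `P(s)` be the product of the
`g_j(s)` and of the `g'_j(s)` with exponents which are not all equal.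
(1) For every `η > 0` there is a constant `C` such that the inequality of Vojta with `C` holds for all
`s` with `(α_s, β_s)` outside `D` except for at most `η N` among any `N` consecutive integers, for `N`
large and from some point on.
(2) For every `ε > 0` there is a constant `C` such that it holds with `C + ε s`, for all `s` with
`(α_s, β_s)` outside `D`.
(3) For all `c, ε > 0` there is a constant `C` such that it holds with
`C + ε (h_K(α_s) + h_K(β_s))`, for all `s` with `(α_s, β_s)` outside `D` and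
`h_K(α_s) + h_K(β_s) ≥ c s`. -/
theorem result [Nonempty I] [Nonempty I'] (g : J → ℕ → 𝓞 K)
    (hg : ∀ j, ∃ E : LinearRecurrence (𝓞 K), E.IsSolution (g j)) (g' : J' → ℕ → 𝓞 K)
    (hg' : ∀ j, ∃ E : LinearRecurrence (𝓞 K), E.IsSolution (g' j))
    (X Y : Fin 2 → ℕ → 𝓞 K) (hX : ∀ k, ∃ E : LinearRecurrence (𝓞 K), E.IsSolution (X k))
    (hY : ∀ k, ∃ E : LinearRecurrence (𝓞 K), E.IsSolution (Y k))
    (a : I → Fin 2 → 𝓞 K) (ha : ∀ i i', i ≠ i' → a i 0 * a i' 1 ≠ a i 1 * a i' 0)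
    (b : I' → Fin 2 → 𝓞 K) (hb : ∀ i i', i ≠ i' → b i 0 * b i' 1 ≠ b i 1 * b i' 0)
    (κ μ : I → 𝓞 K) (hμ : ∀ i, μ i ≠ 0) (κ' μ' : I' → 𝓞 K) (hμ' : ∀ i, μ' i ≠ 0)
    (e : I → J → ℕ) (e' : I' → J' → ℕ)
    (hL : ∀ i s, a i 0 * X 0 s + a i 1 * X 1 s = val κ μ g e i s)
    (hL' : ∀ i s, b i 0 * Y 0 s + b i 1 * Y 1 s = val κ' μ' g' e' i s) :
    let OffD : ℕ → Prop := fun s => equation (fun i k => (a i k : K)) (fun i k => (b i k : K))
      (fun k => (X k s : K)) (fun k => (Y k s : K)) ≠ 0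
    let V : ℝ → ℕ → Prop := fun C s => Vojta (fun i k => (a i k : K)) (fun i k => (b i k : K))
      ((∏ j ∈ uneq e, g j s) * ∏ j ∈ uneq e', g' j s) (fun k => (X k s : K))
      (fun k => (Y k s : K)) C
    (∀ η : ℝ, 0 < η → ∃ (C : ℝ) (T z : ℕ), ∀ t N : ℕ, z ≤ t → T ≤ N →
      (({s | t ≤ s ∧ s < t + N ∧ OffD s ∧ ¬ V C s}.ncard : ℕ) : ℝ) ≤ η * N) ∧
    (∀ ε : ℝ, 0 < ε → ∃ C : ℝ, ∀ s : ℕ, OffD s → V (C + ε * s) s) ∧
    ∀ c ε : ℝ, 0 < c → 0 < ε → ∃ C : ℝ, ∀ s : ℕ, OffD s →
      c * s ≤ height (fun k => (X k s : K)) + height (fun k => (Y k s : K)) →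
      V (C + ε * (height (fun k => (X k s : K)) + height (fun k => (Y k s : K)))) s := by
  intro OffD V
  have hoff : ∀ s, OffD s → (∀ i, Pool.Agent.Q183.AM.hval κ μ g e i s ≠ 0) ∧
      (∀ i, Pool.Agent.Q183.AM.hval κ' μ' g' e' i s ≠ 0) ∧ (fun k => X k s) ≠ 0 ∧
      (fun k => Y k s) ≠ 0 := by
    intro s hs
    have h1 : (∀ i, Pool.Agent.Q183.AM.hval κ μ g e i s ≠ 0) := by
      intro i h0
      apply hs
      refine mul_eq_zero_of_left (Finset.prod_eq_zero (Finset.mem_univ i) ?_) _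
      have h2 : a i 0 * X 0 s + a i 1 * X 1 s = 0 := (hL i s).trans h0
      show (a i 0 : K) * (X 0 s : K) + (a i 1 : K) * (X 1 s : K) = 0
      exact_mod_cast congrArg (algebraMap (𝓞 K) K) h2
    have h2 : (∀ i, Pool.Agent.Q183.AM.hval κ' μ' g' e' i s ≠ 0) := by
      intro i h0
      apply hs
      refine mul_eq_zero_of_right _ (Finset.prod_eq_zero (Finset.mem_univ i) ?_)
      have h2 : b i 0 * Y 0 s + b i 1 * Y 1 s = 0 := (hL' i s).trans h0
      show (b i 0 : K) * (Y 0 s : K) + (b i 1 : K) * (Y 1 s : K) = 0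
      exact_mod_cast congrArg (algebraMap (𝓞 K) K) h2
    refine ⟨h1, h2, fun h0 => ?_, fun h0 => ?_⟩
    · obtain ⟨i⟩ := ‹Nonempty I›
      apply h1 i
      have e0 : X 0 s = 0 := congrFun h0 0
      have e1 : X 1 s = 0 := congrFun h0 1
      have e2 : Pool.Agent.Q183.AM.hval κ μ g e i s = a i 0 * X 0 s + a i 1 * X 1 s := (hL i s).symm
      rw [e2, e0, e1, mul_zero, mul_zero, add_zero]
    · obtain ⟨i⟩ := ‹Nonempty I'›
      apply h2 i
      have e0 : Y 0 s = 0 := congrFun h0 0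
      have e1 : Y 1 s = 0 := congrFun h0 1
      have e2 : Pool.Agent.Q183.AM.hval κ' μ' g' e' i s = b i 0 * Y 0 s + b i 1 * Y 1 s :=
        (hL' i s).symm
      rw [e2, e0, e1, mul_zero, mul_zero, add_zero]
  have hAA := Pool.Agent.Q183.AM.grid Pool.Agent.Q183.AM.mAA g hg g' hg' X Y hX hY a ha b hb κ μ hμ
    κ' μ' hμ' e e' hL hL'
  have hEE := Pool.Agent.Q183.AM.grid Pool.Agent.Q183.AM.mEE g hg g' hg' X Y hX hY a ha b hb κ μ hμ
    κ' μ' hμ' e e' hL hL'
  have mono : Pool.Agent.Q183.AR.MonoC fun C s =>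
      (∀ i, Pool.Agent.Q183.AM.hval κ μ g e i s ≠ 0) →
      (∀ i, Pool.Agent.Q183.AM.hval κ' μ' g' e' i s ≠ 0) →
      Pool.Agent.Q183.AM.GIneq a b g g' e e' X Y C s :=
    fun C C' s hCC h1 h2 h3 => Pool.Agent.Q183.AM.gineq_mono a b g g' e e' X Y C C' s hCC (h1 h2 h3)
  have triv : ∀ s, ∃ C, (∀ i, Pool.Agent.Q183.AM.hval κ μ g e i s ≠ 0) →
      (∀ i, Pool.Agent.Q183.AM.hval κ' μ' g' e' i s ≠ 0) →
      Pool.Agent.Q183.AM.GIneq a b g g' e e' X Y C s := by
    intro s
    set A : ℝ := ((Fintype.card I : ℝ) - 2) * Height.logHeight (fun k => (X k s : K)) +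
      ((Fintype.card I' : ℝ) - 2) * Height.logHeight (fun k => (Y k s : K)) with hA
    refine ⟨Real.exp |A|, fun _ _ 𝔞 𝔟 _ _ _ => ?_⟩
    rw [max_eq_left (Real.one_le_exp (abs_nonneg _)), Real.log_exp]
    have h1 : 0 ≤ Pool.Agent.Q183.AM.NG a b (fun k => X k s) (fun k => Y k s) := by
      refine finsum_nonneg fun v => le_min (Pool.Agent.Q183.AM.log_Nv_pos v).le ?_
      have := Real.log_nonpos (mul_nonneg (Pool.Agent.Q183.AM.rel_nonneg v a (fun k => X k s))
        (Pool.Agent.Q183.AM.rel_nonneg v b (fun k => Y k s)))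
        (mul_le_one₀ (Pool.Agent.Q183.AM.rel_le_one v a (fun k => X k s))
          (Pool.Agent.Q183.AM.rel_nonneg v b (fun k => Y k s))
          (Pool.Agent.Q183.AM.rel_le_one v b (fun k => Y k s)))
      linarith
    have h2 : 0 ≤ Real.log (Ideal.absNorm 𝔟) := Real.log_natCast_nonneg _
    have h3 := le_abs_self A
    linarith
  have part2 : ∀ ε : ℝ, 0 < ε → ∃ C : ℝ, ∀ s : ℕ, OffD s → V (C + ε * s) s := by
    intro ε hε
    obtain ⟨C, hC, h⟩ := Pool.Agent.Q183.AM.ee_form hEE mono triv ε hε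
    refine ⟨C, fun s hs => ?_⟩
    obtain ⟨k1, k2, k3, k4⟩ := hoff s hs
    exact vojta_of (by positivity) k3 k4 (h s k1 k2)
  refine ⟨fun η hη => ?_, part2, fun c ε hc hε => ?_⟩
  · obtain ⟨C, T, z, hC, h⟩ := Pool.Agent.Q183.AM.aa_form hAA η hη
    refine ⟨C, T, z, fun t N ht hN => Pool.Agent.Q183.AM.ncard_form (h t N ht hN) ?_⟩
    rintro s ⟨k1, k2⟩ k3
    obtain ⟨j1, j2, j3, j4⟩ := hoff s k1
    exact k2 (vojta_of hC j3 j4 (k3 j1 j2))
  · obtain ⟨C, h⟩ := part2 (ε * c) (mul_pos hε hc)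
    refine ⟨C, fun s hs hcs 𝔞 𝔟 h1 h2 h3 => (h s hs 𝔞 𝔟 h1 h2 h3).trans ?_⟩
    have h4 : ε * c * s ≤ ε * (height (fun k => (X k s : K)) + height (fun k => (Y k s : K))) := by
      rw [mul_assoc]
      exact mul_le_mul_of_nonneg_left hcs hε.le
    linarith

end Pool.Agent.Results.MP_542436_nt.TruncatedAlongRecurrences
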